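import Mathlib

set_option autoImplicit false

/-!
# The infimum defining the fractional minimal rank need not be attained

Over every field containing an element `q ≠ 0` which is not a root of unity (for instance over every
field of characteristic zero) we give a `7 × 7` partial matrix `A` with `mr_b(A) = 2 b + 1` for all
`b ≥ 1`.  Hence `fmr(A) = 2` and `mr_b(A) > b · fmr(A)` for all `b ≥ 1`.  The completions of
`A ⊗ I_b` of rank `2 b` would correspond to pairs of invertible `b × b` matrices with `X Y = q Y X`,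
which do not exist (take determinants), while there are such pairs up to an error of rank one.
-/

namespace Pool.Agent.Results.MP_3569d7_al.NotAttained

open Matrix

universe u

variable {F : Type u} [Field F]

/-- `M` is a completion of `A ⊗ I_b`: the `(i,j)` block is `a I_b` whenever `A i j = some a` -/
def IsCompletion {m n : ℕ} (A : Fin m → Fin n → Option F) (b : ℕ)
    (M : Matrix (Fin m × Fin b) (Fin n × Fin b) F) : Prop :=
  ∀ i j a, A i j = some a → ∀ k l, M (i, k) (j, l) = if k = l then a else 0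

/-- the minimal rank `mr_b(A)` of the completions of `A ⊗ I_b` -/
noncomputable def mr {m n : ℕ} (A : Fin m → Fin n → Option F) (b : ℕ) : ℕ :=
  sInf {r | ∃ M : Matrix (Fin m × Fin b) (Fin n × Fin b) F, IsCompletion A b M ∧ M.rank = r}

/-- the fractional minimal rank -/
noncomputable def fmr {m n : ℕ} (A : Fin m → Fin n → Option F) : ℝ :=
  ⨅ b : {b : ℕ // 1 ≤ b}, (mr A b.1 : ℝ) / b.1

/-- the block `(i,j)` -/
def blk {m n b : ℕ} (M : Matrix (Fin m × Fin b) (Fin n × Fin b) F) (i : Fin m) (j : Fin n) :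
    Matrix (Fin b) (Fin b) F := Matrix.of fun k l => M (i, k) (j, l)

/-- the partial matrix -/
def A (q : F) : Fin 7 → Fin 7 → Option F :=
  ![![some 1, some 0, none, some 1, none, some 0, none],
    ![some 0, some 1, some 0, none, none, none, some 1],
    ![none, none, some 1, none, some 0, some 1, none],
    ![none, some 1, some 1, some 0, none, none, none],
    ![some 0, none, none, some (-1), some (-q), none, none],
    ![some 1, none, none, none, none, some 1, some 0],
    ![none, some 0, none, none, some 1, none, some (-1)]]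

theorem blk_eq {m n b : ℕ} {A : Fin m → Fin n → Option F}
    {M : Matrix (Fin m × Fin b) (Fin n × Fin b) F} (h : IsCompletion A b M) {i : Fin m} {j : Fin n}
    {a : F} (ha : A i j = some a) : blk M i j = a • (1 : Matrix (Fin b) (Fin b) F) := by
  ext k l
  rw [blk, Matrix.of_apply, h i j a ha k l, Matrix.smul_apply, Matrix.one_apply]
  split_ifs <;> simp

/-- if a completion has rank at most `2 b`, all blocks are determined by the first two block rows and
columns -/
theorem blk_factor {b : ℕ} {M : Matrix (Fin 7 × Fin b) (Fin 7 × Fin b) F}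
    (h00 : blk M 0 0 = 1) (h01 : blk M 0 1 = 0) (h10 : blk M 1 0 = 0) (h11 : blk M 1 1 = 1)
    (hr : M.rank ≤ 2 * b) (i j : Fin 7) :
    blk M i j = blk M i 0 * blk M 0 j + blk M i 1 * blk M 1 j := by
  classical
  let e : Fin 2 → Fin 7 := ![0, 1]
  let v : Fin 2 × Fin b → (Fin 7 × Fin b → F) := fun ts => M.row (e ts.1, ts.2)
  have hid : ∀ t s t' s', M (e t, s) (e t', s') = if (t, s) = (t', s') then 1 else 0 := by
    intro t s t' s'
    have a00 := congrFun (congrFun h00 s) s'
    have a01 := congrFun (congrFun h01 s) s'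
    have a10 := congrFun (congrFun h10 s) s'
    have a11 := congrFun (congrFun h11 s) s'
    simp only [blk, Matrix.of_apply, Matrix.one_apply, Matrix.zero_apply] at a00 a01 a10 a11
    fin_cases t <;> fin_cases t' <;> simp [e, a00, a01, a10, a11]
  have hli : LinearIndependent F v := by
    rw [Fintype.linearIndependent_iff]
    intro c hc ts
    have := congrFun hc (e ts.1, ts.2)
    simp only [v, Finset.sum_apply, Pi.smul_apply, Matrix.row_apply, Pi.zero_apply, smul_eq_mul] at this
    rw [Finset.sum_eq_single ts] at this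
    · rw [hid, if_pos rfl, mul_one] at this
      exact this
    · intro ts' _ hne
      rw [hid, if_neg, mul_zero]
      exact hne
    · intro h; exact absurd (Finset.mem_univ _) h
  have hle : Submodule.span F (Set.range v) ≤ Submodule.span F (Set.range M.row) := by
    apply Submodule.span_mono
    rintro _ ⟨ts, rfl⟩
    exact ⟨_, rfl⟩
  have hspan : Submodule.span F (Set.range v) = Submodule.span F (Set.range M.row) := by
    apply Submodule.eq_of_le_of_finrank_le hle
    rw [finrank_span_eq_card hli, ← Matrix.rank_eq_finrank_span_row]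
    simpa using hr
  ext k l
  have hmem : M.row (i, k) ∈ Submodule.span F (Set.range v) := by
    rw [hspan]; exact Submodule.subset_span ⟨_, rfl⟩
  rw [Submodule.mem_span_range_iff_exists_fun] at hmem
  obtain ⟨c, hc⟩ := hmem
  have hval : ∀ x, M (i, k) x = ∑ ts, c ts * M (e ts.1, ts.2) x := by
    intro x
    have := congrFun hc x
    simp only [v, Finset.sum_apply, Pi.smul_apply, Matrix.row_apply, smul_eq_mul] at this
    exact this.symm
  have hcv : ∀ ts, c ts = M (i, k) (e ts.1, ts.2) := by
    intro ts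
    rw [hval, Finset.sum_eq_single ts]
    · rw [hid, if_pos rfl, mul_one]
    · intro ts' _ hne
      rw [hid, if_neg, mul_zero]
      exact hne
    · intro h; exact absurd (Finset.mem_univ _) h
  simp only [blk, Matrix.of_apply, Matrix.add_apply, Matrix.mul_apply]
  rw [hval, Fintype.sum_prod_type, Fin.sum_univ_two]
  simp only [hcv]
  rfl

/-- no completion has rank at most `2 b` -/
theorem no_small {q : F} (hq : ∀ n : ℕ, 1 ≤ n → q ^ n ≠ 1) {b : ℕ} (hb : 1 ≤ b)
    {M : Matrix (Fin 7 × Fin b) (Fin 7 × Fin b) F} (hM : IsCompletion (A q) b M) :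
    2 * b + 1 ≤ M.rank := by
  by_contra hlt
  have hr : M.rank ≤ 2 * b := by omega
  have e : ∀ {i j : Fin 7} {a : F}, A q i j = some a →
      blk M i j = a • (1 : Matrix (Fin b) (Fin b) F) := fun ha => blk_eq hM ha
  have h00 : blk M 0 0 = 1 := by rw [e (a := 1) rfl, one_smul]
  have h01 : blk M 0 1 = 0 := by rw [e (a := 0) rfl, zero_smul]
  have h10 : blk M 1 0 = 0 := by rw [e (a := 0) rfl, zero_smul]
  have h11 : blk M 1 1 = 1 := by rw [e (a := 1) rfl, one_smul]
  have fac := blk_factor h00 h01 h10 h11 hr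
  have h12 : blk M 1 2 = 0 := by rw [e (a := 0) rfl, zero_smul]
  have h03 : blk M 0 3 = 1 := by rw [e (a := 1) rfl, one_smul]
  have h05 : blk M 0 5 = 0 := by rw [e (a := 0) rfl, zero_smul]
  have h16 : blk M 1 6 = 1 := by rw [e (a := 1) rfl, one_smul]
  have h31 : blk M 3 1 = 1 := by rw [e (a := 1) rfl, one_smul]
  have h40 : blk M 4 0 = 0 := by rw [e (a := 0) rfl, zero_smul]
  have h50 : blk M 5 0 = 1 := by rw [e (a := 1) rfl, one_smul]
  have h61 : blk M 6 1 = 0 := by rw [e (a := 0) rfl, zero_smul]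
  have r22 := fac 2 2
  have r32 := fac 3 2
  have r33 := fac 3 3
  have r43 := fac 4 3
  have r44 := fac 4 4
  have r25 := fac 2 5
  have r55 := fac 5 5
  have r56 := fac 5 6
  have r66 := fac 6 6
  have r64 := fac 6 4
  have r24 := fac 2 4
  rw [e (a := 1) rfl, h12, one_smul, mul_zero, add_zero] at r22
  rw [e (a := 1) rfl, h12, one_smul, mul_zero, add_zero] at r32
  rw [e (a := 0) rfl, h03, h31, zero_smul, mul_one, one_mul] at r33
  rw [e (a := -1) rfl, h40, zero_mul, zero_add, neg_smul, one_smul] at r43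
  rw [e (a := -q) rfl, h40, zero_mul, zero_add] at r44
  rw [e (a := 1) rfl, h05, one_smul, mul_zero, zero_add] at r25
  rw [e (a := 1) rfl, h05, one_smul, mul_zero, zero_add] at r55
  rw [e (a := 0) rfl, h50, h16, zero_smul, one_mul, mul_one] at r56
  rw [e (a := -1) rfl, h61, zero_mul, add_zero, neg_smul, one_smul] at r66
  rw [e (a := 1) rfl, h61, zero_mul, add_zero, one_smul] at r64
  rw [e (a := 0) rfl, zero_smul] at r24
  generalize blk M 2 0 = X at *
  generalize blk M 2 1 = Y at *
  generalize blk M 0 2 = z at *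
  generalize blk M 3 0 = f1 at *
  generalize blk M 1 3 = w at *
  generalize blk M 4 1 = y at *
  generalize blk M 0 4 = q1 at *
  generalize blk M 1 4 = q2 at *
  generalize blk M 1 5 = z' at *
  generalize blk M 5 1 = f2 at *
  generalize blk M 0 6 = w' at *
  generalize blk M 6 0 = y' at *
  have hzX : z * X = 1 := mul_eq_one_comm.1 r22.symm
  have hf1 : f1 = X := by
    calc f1 = f1 * (z * X) := by rw [hzX, mul_one]
      _ = (f1 * z) * X := by rw [mul_assoc]
      _ = X := by rw [← r32, one_mul]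
  have hw : w = -X := by
    rw [hf1] at r33
    exact (neg_eq_of_add_eq_zero_right r33.symm).symm
  have hyX : y * X = 1 := by
    rw [hw, mul_neg] at r43
    exact (neg_injective r43).symm
  have hXy : X * y = 1 := mul_eq_one_comm.1 hyX
  have hq2 : q2 = (-q) • X := by
    calc q2 = (X * y) * q2 := by rw [hXy, one_mul]
      _ = X * (y * q2) := by rw [mul_assoc]
      _ = (-q) • X := by rw [← r44, Matrix.mul_smul, mul_one]
  have hzY : z' * Y = 1 := mul_eq_one_comm.1 r25.symm
  have hf2 : f2 = Y := by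
    calc f2 = f2 * (z' * Y) := by rw [hzY, mul_one]
      _ = (f2 * z') * Y := by rw [mul_assoc]
      _ = Y := by rw [← r55, one_mul]
  have hw' : w' = -Y := by
    rw [hf2] at r56
    exact (neg_eq_of_add_eq_zero_left r56.symm).symm
  have hyY : y' * Y = 1 := by
    rw [hw', mul_neg] at r66
    exact (neg_injective r66).symm
  have hYy : Y * y' = 1 := mul_eq_one_comm.1 hyY
  have hq1 : q1 = Y := by
    calc q1 = (Y * y') * q1 := by rw [hYy, one_mul]
      _ = Y * (y' * q1) := by rw [mul_assoc]
      _ = Y := by rw [← r64, mul_one]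
  rw [hq1, hq2, Matrix.mul_smul, neg_smul, ← sub_eq_add_neg] at r24
  have hcomm : X * Y = q • (Y * X) := sub_eq_zero.1 r24.symm
  have hdet := congrArg Matrix.det hcomm
  rw [Matrix.det_mul, Matrix.det_smul, Matrix.det_mul, Fintype.card_fin] at hdet
  have dX : X.det ≠ 0 := by
    intro h0
    have := congrArg Matrix.det hXy
    rw [Matrix.det_mul, h0, zero_mul, Matrix.det_one] at this
    exact zero_ne_one this
  have dY : Y.det ≠ 0 := by
    intro h0
    have := congrArg Matrix.det hYy
    rw [Matrix.det_mul, h0, zero_mul, Matrix.det_one] at this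
    exact zero_ne_one this
  apply hq b hb
  have h1 : (q ^ b - 1) * (X.det * Y.det) = 0 := by linear_combination -hdet
  rcases mul_eq_zero.1 h1 with h | h
  · exact sub_eq_zero.1 h
  · exact absurd h (mul_ne_zero dX dY)

/-- coordinates of the block rows of the nearly optimal completion -/
def Pc {b : ℕ} (X X' Y Y' : Matrix (Fin b) (Fin b) F) : Fin 7 → Fin 2 → Matrix (Fin b) (Fin b) F :=
  ![![1, 0], ![0, 1], ![X, Y], ![X, 1], ![0, X'], ![1, Y], ![Y', 0]]

/-- coordinates of the block columns of the nearly optimal completion -/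
def Qc {b : ℕ} (q : F) (X X' Y Y' : Matrix (Fin b) (Fin b) F) :
    Fin 2 → Fin 7 → Matrix (Fin b) (Fin b) F :=
  ![![1, 0, X', 1, Y, 0, -Y], ![0, 1, 0, -X, -(q • X), Y', 1]]

/-- there is a completion of rank at most `2 b + 1` as soon as `X Y - q Y X` has rank one -/
theorem upper {q : F} {b : ℕ} (X X' Y Y' : Matrix (Fin b) (Fin b) F) (hX : X * X' = 1)
    (hY : Y * Y' = 1) (u v : Fin b → F)
    (huv : X * Y - q • (Y * X) = Matrix.of fun k l => u k * v l) :
    ∃ M : Matrix (Fin 7 × Fin b) (Fin 7 × Fin b) F, IsCompletion (A q) b M ∧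
      M.rank ≤ 2 * b + 1 := by
  classical
  let P : Matrix (Fin 7 × Fin b) ((Fin 2 × Fin b) ⊕ Unit) F := fun ik s =>
    match s with
    | Sum.inl ts => Pc X X' Y Y' ik.1 ts.1 ik.2 ts.2
    | Sum.inr _ => if ik.1 = 2 then -u ik.2 else 0
  let Q : Matrix ((Fin 2 × Fin b) ⊕ Unit) (Fin 7 × Fin b) F := fun s jl =>
    match s with
    | Sum.inl ts => Qc q X X' Y Y' ts.1 jl.1 ts.2 jl.2
    | Sum.inr _ => if jl.1 = 4 then v jl.2 else 0
  have hX' : X' * X = 1 := mul_eq_one_comm.1 hX
  have hY' : Y' * Y = 1 := mul_eq_one_comm.1 hY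
  have hval : ∀ i j k l, (P * Q) (i, k) (j, l) =
      (Pc X X' Y Y' i 0 * Qc q X X' Y Y' 0 j + Pc X X' Y Y' i 1 * Qc q X X' Y Y' 1 j) k l +
        (if i = 2 then -u k else 0) * (if j = 4 then v l else 0) := by
    intro i j k l
    rw [Matrix.mul_apply, Fintype.sum_sum_type, Fintype.sum_prod_type, Fin.sum_univ_two]
    simp [P, Q, Matrix.mul_apply]
  refine ⟨P * Q, ?_, ?_⟩
  · intro i j a ha k l
    rw [hval]
    have key : ∀ (B : Matrix (Fin b) (Fin b) F) (c : F), B = c • 1 →
        B k l = if k = l then c else 0 := by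
      rintro B c rfl
      rw [Matrix.smul_apply, Matrix.one_apply]; split_ifs <;> simp
    by_cases h24 : i = 2 ∧ j = 4
    · obtain ⟨rfl, rfl⟩ := h24
      have ha' : a = 0 := by
        have : (some 0 : Option F) = some a := ha
        simpa using this.symm
      subst ha'
      have h1 : (Pc X X' Y Y' 2 0 * Qc q X X' Y Y' 0 4 +
          Pc X X' Y Y' 2 1 * Qc q X X' Y Y' 1 4) = X * Y - q • (Y * X) := by
        simp [Pc, Qc, sub_eq_add_neg]
      rw [h1, huv]
      simp
    · have h0 : (if i = 2 then -u k else 0) * (if j = 4 then v l else 0) = (0 : F) := by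
        by_cases hi : i = 2
        · have hj : j ≠ 4 := fun hj => h24 ⟨hi, hj⟩
          simp [hj]
        · simp [hi]
      rw [h0, add_zero]
      apply key
      clear h0 hval
      fin_cases i <;> fin_cases j <;> simp [A] at ha <;> subst ha <;>
        simp [Pc, Qc, hX, hY, hX', hY'] <;> (simp at h24)
  · calc (P * Q).rank ≤ P.rank := Matrix.rank_mul_le_left P Q
      _ ≤ Fintype.card ((Fin 2 × Fin b) ⊕ Unit) := Matrix.rank_le_card_width P
      _ = 2 * b + 1 := by simp

/-- invertible matrices which commute up to `q`, up to an error of rank one -/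
theorem approx (q : F) (hq0 : q ≠ 0) (c : ℕ) :
    ∃ (X X' Y Y' : Matrix (Fin (c + 1)) (Fin (c + 1)) F) (u v : Fin (c + 1) → F),
      X * X' = 1 ∧ Y * Y' = 1 ∧ X * Y - q • (Y * X) = Matrix.of fun k l => u k * v l := by
  classical
  refine ⟨Matrix.diagonal fun i => q ^ (i : ℕ), Matrix.diagonal fun i => (q ^ (i : ℕ))⁻¹,
    Matrix.of fun i j => if i = finRotate (c + 1) j then 1 else 0,
    Matrix.of fun i j => if j = finRotate (c + 1) i then 1 else 0,
    fun k => if k = 0 then 1 - q ^ (c + 1) else 0, fun l => if l = Fin.last c then 1 else 0,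
    ?_, ?_, ?_⟩
  · rw [Matrix.diagonal_mul_diagonal, ← Matrix.diagonal_one]
    congr 1
    funext i
    exact mul_inv_cancel₀ (pow_ne_zero _ hq0)
  · ext i j
    rw [Matrix.mul_apply, Finset.sum_eq_single ((finRotate (c + 1)).symm i)]
    · simp [Matrix.one_apply, eq_comm]
    · intro k _ hk
      simp only [Matrix.of_apply]
      rw [if_neg, zero_mul]
      intro h
      apply hk
      rw [h, Equiv.symm_apply_apply]
    · intro h; exact absurd (Finset.mem_univ _) h
  · ext i j
    rw [Matrix.sub_apply, Matrix.smul_apply, Matrix.diagonal_mul, Matrix.mul_diagonal]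
    simp only [Matrix.of_apply, smul_eq_mul]
    by_cases hj : j = Fin.last c
    · subst hj
      rw [finRotate_last]
      by_cases hi : i = 0
      · subst hi
        simp [pow_succ]
        ring
      · simp [hi]
    · rw [if_neg hj, mul_zero]
      by_cases hi : i = finRotate (c + 1) j
      · have : (i : ℕ) = j + 1 := by
          rw [hi]; exact coe_finRotate_of_ne_last hj
        rw [if_pos hi, this, pow_succ]
        ring
      · rw [if_neg hi]; ring

theorem mr_A {q : F} (hq0 : q ≠ 0) (hq : ∀ n : ℕ, 1 ≤ n → q ^ n ≠ 1) {b : ℕ} (hb : 1 ≤ b) :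
    mr (A q) b = 2 * b + 1 := by
  obtain ⟨c, rfl⟩ : ∃ c, b = c + 1 := ⟨b - 1, by omega⟩
  obtain ⟨X, X', Y, Y', u, v, hX, hY, huv⟩ := approx q hq0 c
  obtain ⟨M, hM, hr⟩ := upper X X' Y Y' hX hY u v huv
  apply le_antisymm
  · have h1 : mr (A q) (c + 1) ≤ M.rank := Nat.sInf_le ⟨M, hM, rfl⟩
    exact h1.trans hr
  · unfold mr
    refine le_csInf ⟨M.rank, M, hM, rfl⟩ ?_
    rintro r ⟨M', hM', rfl⟩
    exact no_small hq hb hM'

theorem fmr_A {q : F} (hq0 : q ≠ 0) (hq : ∀ n : ℕ, 1 ≤ n → q ^ n ≠ 1) : fmr (A q) = 2 := by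
  have hval : ∀ b : {b : ℕ // 1 ≤ b}, (mr (A q) b.1 : ℝ) / b.1 = 2 + 1 / (b.1 : ℝ) := by
    rintro ⟨b, hb⟩
    have hb0 : (b : ℝ) ≠ 0 := by
      have : 0 < (b : ℝ) := by exact_mod_cast hb
      exact this.ne'
    simp only
    rw [mr_A hq0 hq hb]
    push_cast
    field_simp
  unfold fmr
  have : Nonempty {b : ℕ // 1 ≤ b} := ⟨⟨1, le_refl 1⟩⟩
  apply le_antisymm
  · apply le_of_forall_pos_lt_add
    intro ε hε
    obtain ⟨n, hn⟩ := exists_nat_gt (1 / ε)
    have hn0 : 0 < (n : ℝ) := (by positivity : (0 : ℝ) < 1 / ε).trans hn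
    have hn1 : 1 ≤ n := by
      have : 0 < n := by exact_mod_cast hn0
      omega
    have hbdd : BddBelow (Set.range fun b : {b : ℕ // 1 ≤ b} => (mr (A q) b.1 : ℝ) / b.1) := by
      refine ⟨0, ?_⟩
      rintro _ ⟨b, rfl⟩
      positivity
    refine lt_of_le_of_lt (ciInf_le hbdd ⟨n, hn1⟩) ?_
    rw [hval]
    have : 1 / (n : ℝ) < ε := by
      rw [div_lt_iff₀ hn0]
      rw [div_lt_iff₀ hε] at hn
      linarith
    simpa using this
  · apply le_ciInf
    intro b
    rw [hval]
    have : (0 : ℝ) ≤ 1 / (b.1 : ℝ) := by positivity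
    linarith

/-- **Q1: no.** Let `F` be a field containing an element `q ≠ 0` which is not a root of unity. The
`7 × 7` partial matrix `A q` has `mr_b(A q) = 2 b + 1` for all `b ≥ 1` and `fmr(A q) = 2`, so the
infimum defining `fmr(A q)` is not attained. In particular the infimum is not always attained over
any field of characteristic zero, such as the complex field. -/
theorem result :
    (∀ (F : Type u) [Field F] (q : F), q ≠ 0 → (∀ n : ℕ, 1 ≤ n → q ^ n ≠ 1) →
      (∀ b : ℕ, 1 ≤ b → mr (A q) b = 2 * b + 1) ∧ fmr (A q) = 2 ∧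
      ∀ b : ℕ, 1 ≤ b → fmr (A q) < (mr (A q) b : ℝ) / b) ∧
    (∀ (F : Type u) [Field F] [CharZero F], ∃ (m n : ℕ) (A : Fin m → Fin n → Option F),
      ∀ b : ℕ, 1 ≤ b → fmr A < (mr A b : ℝ) / b) := by
  have key : ∀ (F : Type u) [Field F] (q : F), q ≠ 0 → (∀ n : ℕ, 1 ≤ n → q ^ n ≠ 1) →
      (∀ b : ℕ, 1 ≤ b → mr (A q) b = 2 * b + 1) ∧ fmr (A q) = 2 ∧
      ∀ b : ℕ, 1 ≤ b → fmr (A q) < (mr (A q) b : ℝ) / b := by
    intro F _ q hq0 hq
    refine ⟨fun b hb => mr_A hq0 hq hb, fmr_A hq0 hq, ?_⟩
    intro b hb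
    have hb0 : 0 < (b : ℝ) := by exact_mod_cast hb
    rw [fmr_A hq0 hq, mr_A hq0 hq hb, lt_div_iff₀ hb0]
    push_cast
    linarith
  refine ⟨key, ?_⟩
  intro F _ _
  refine ⟨7, 7, A (2 : F), (key F 2 two_ne_zero ?_).2.2⟩
  intro n hn h
  have h1 : ((2 ^ n : ℕ) : F) = ((1 : ℕ) : F) := by push_cast; exact h
  have h2 : 2 ^ n = 1 := Nat.cast_injective h1
  have h3 : 2 ^ 1 ≤ 2 ^ n := Nat.pow_le_pow_right (by norm_num) hn
  omega

end Pool.Agent.Results.MP_3569d7_al.NotAttained
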